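import Pool.Agent.H3RD.W830.RD.Stm

/-! # Project RD: the induction -/

set_option autoImplicit false

namespace Pool.Agent.W490.RD.Ind

open Finset
open Pool.Agent.W830.RD
open scoped Classical

theorem sch_mono {α : Type} [PartialOrder α] {M N : ℕ} (h : M ≤ N) {D U : Finset α}
    (hs : Sch M D U) : Sch N D U := by
  obtain ⟨L, X, Y, h1, h2⟩ := hs
  exact ⟨L, X, Y, h1.trans h, h2⟩

theorem mem_DD {α : Type} {S : Finset α} {P : Finset (Finset α)} {x : α} :
    x ∈ DD S P ↔ x ∈ S ∨ ∃ C ∈ P, x ∈ C := by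
  simp [DD]

theorem DD_erase_left {α : Type} {S : Finset α} {P : Finset (Finset α)} {x : α} (hx : x ∈ S) :
    DD (S.erase x) P ∪ {x} = DD S P := by
  ext y
  simp only [mem_union, mem_DD, mem_erase, mem_singleton]
  constructor
  · rintro ((⟨-, h⟩ | h) | rfl)
    · exact Or.inl h
    · exact Or.inr h
    · exact Or.inl hx
  · rintro (h | h)
    · by_cases hy : y = x
      · exact Or.inr hy
      · exact Or.inl (Or.inl ⟨hy, h⟩)
    · exact Or.inl (Or.inr h)

theorem DD_erase_right {α : Type} {S : Finset α} {P : Finset (Finset α)} {C : Finset α}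
    (hC : C ∈ P) : DD S (P.erase C) ∪ C = DD S P := by
  ext y
  simp only [mem_union, mem_DD, mem_erase]
  constructor
  · rintro ((h | ⟨D, ⟨-, hD⟩, h⟩) | h)
    · exact Or.inl h
    · exact Or.inr ⟨D, hD, h⟩
    · exact Or.inr ⟨C, hC, h⟩
  · rintro (h | ⟨D, hD, h⟩)
    · exact Or.inl (Or.inl h)
    · by_cases hDC : D = C
      · rw [hDC] at h
        exact Or.inr h
      · exact Or.inl (Or.inr ⟨D, ⟨hDC, hD⟩, h⟩)

theorem DD_insert {α : Type} {S : Finset α} {P : Finset (Finset α)} {C : Finset α} {x : α}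
    (hC : C ∈ P) (hx : x ∈ C) : DD (insert x S) (P.erase C) ∪ C.erase x = DD S P := by
  rw [← DD_erase_right hC]
  ext y
  simp only [mem_union, mem_DD, mem_erase, mem_insert]
  constructor
  · rintro (((rfl | h) | h) | h)
    · exact Or.inr hx
    · exact Or.inl (Or.inl h)
    · exact Or.inl (Or.inr h)
    · exact Or.inr h.2
  · rintro ((h | h) | h)
    · exact Or.inl (Or.inl (Or.inr h))
    · exact Or.inl (Or.inr h)
    · by_cases hy : y = x
      · exact Or.inl (Or.inl (Or.inl hy))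
      · exact Or.inr ⟨hy, h⟩

theorem chn_singleton {α : Type} [PartialOrder α] (x : α) : Chn ({x} : Finset α) := by
  intro a ha b hb
  rw [mem_singleton] at ha hb
  rw [ha, hb]
  exact Or.inl le_rfl

theorem chn_erase {α : Type} [PartialOrder α] {C : Finset α} (h : Chn C) (x : α) :
    Chn (C.erase x) :=
  fun a ha b hb => h a (mem_of_mem_erase ha) b (mem_of_mem_erase hb)

theorem st_dual {α : Type} [PartialOrder α] {S T : Finset α} {P Q : Finset (Finset α)}
    (h : St S T P Q) : @St αᵒᵈ _ T S Q P :=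
  ⟨fun C hC x hx y hy => (h.chQ C hC x hx y hy).symm, fun C hC x hx y hy =>
    (h.chP C hC x hx y hy).symm, h.cQ, h.cP, h.dQ, h.dP, h.pQ, h.pP⟩

theorem nn_dual {α : Type} [PartialOrder α] {S T : Finset α} {P Q : Finset (Finset α)}
    (h : NN S T P Q) : @NN αᵒᵈ _ T S Q P := by
  refine ⟨fun x hx y hy => h.ss y hy x hx, fun x hx C hC => h.pt C hC x hx,
    fun C hC y hy => h.sq y hy C hC, fun C hC C' hC' => ?_⟩
  obtain ⟨x, hx, y, hy, hxy⟩ := h.pq C' hC' C hC
  exact ⟨y, hy, x, hx, hxy⟩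

theorem sum_sub {α : Type} (J : Finset (Finset α)) (h : ∀ C ∈ J, 2 ≤ C.card) :
    ∑ C ∈ J, (C.card - 1) = ∑ C ∈ J, (C.card - 2) + J.card := by
  rw [card_eq_sum_ones, ← sum_add_distrib]
  refine sum_congr rfl fun C hC => ?_
  have := h C hC
  omega

theorem main (h0 : S_STEP0) (h2 : S_STEP2) (hS : S_SADD) (hD : S_DUAL) (hM : S_ASM)
    (hA : S_DIRA) (hX : S_DICH) : S_IND := by
  intro α _ N
  induction N using Nat.strong_induction_on with
  | _ N ih =>
  intro S T P Q H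
  have add : ∀ (S' T' : Finset α) (P' Q' : Finset (Finset α)) (C C' : Finset α), 1 ≤ N →
      Hyp ((N : ℤ) - 1) S' T' P' Q' → Chn C → Chn C' → (∀ d ∈ C, ∀ u ∈ C', ¬ d ≤ u) →
      Sch N (DD S' P' ∪ C) (DD T' Q' ∪ C') := by
    intro S' T' P' Q' C C' hN H' hC hC' hn
    have e : ((N : ℤ) - 1) = ((N - 1 : ℕ) : ℤ) := by omega
    rw [e] at H'
    have h := hS α (N - 1) _ _ C C' (ih (N - 1) (by omega) S' T' P' Q' H') hC hC' hn
    rwa [Nat.sub_add_cancel hN] at h
  have g1 := H.h1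
  have g3 := H.h3
  obtain ⟨J, hJQ, I, hIP, hJc, hIc, hsum⟩ := H.h5
  have st := H.st
  have step0 := h0 α (N : ℤ) S T P Q H
  have step2 := h2 α (N : ℤ) S T P Q H
  unfold exc jj exc at *
  by_cases hexc : (S.card : ℤ) + T.card + P.card + Q.card - N ≤ 0
  · rcases isEmpty_or_nonempty α with hα | hα
    · exact ⟨0, ∅, ∅, by simp, by simp, fun x => isEmptyElim x, fun x => isEmptyElim x, by simp,
        by simp, by simp⟩
    · have h := hM α S T P Q ∅ ∅ ∅ (fun _ => Classical.arbitrary α) st.chP st.chQ (by simp)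
        (by simp) (by simp) (by simp) (by simp) (by simp) (by simp) (by simp) (by simp)
      refine sch_mono ?_ h
      simp only [card_empty, sdiff_empty]
      omega
  push Not at hexc
  -- the excess
  obtain ⟨e, he⟩ : ∃ e : ℕ, (e : ℤ) = (S.card : ℤ) + T.card + P.card + Q.card - N :=
    ⟨((S.card : ℤ) + T.card + P.card + Q.card - N).toNat, Int.toNat_of_nonneg hexc.le⟩
  rw [← he] at hJc hIc hsum hexc step2
  have hNe : N + e = S.card + T.card + P.card + Q.card := by omega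
  -- incomparable natural pairs
  by_cases c1 : ∃ x ∈ S, ∃ y ∈ T, ¬ x ≤ y
  · obtain ⟨x, hx, y, hy, hxy⟩ := c1
    have hs : 1 ≤ S.card := card_pos.2 ⟨x, hx⟩
    have h := add _ _ _ _ {x} {y} (by omega) (step0.1 x hx y hy) (chn_singleton x)
      (chn_singleton y) (by
        intro d hd u hu
        rw [mem_singleton] at hd hu
        rw [hd, hu]
        exact hxy)
    rwa [DD_erase_left hx, DD_erase_left hy] at h
  by_cases c2 : ∃ x ∈ S, ∃ C ∈ Q, ∀ y ∈ C, ¬ x ≤ y
  · obtain ⟨x, hx, C, hC, hxC⟩ := c2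
    have hs : 1 ≤ S.card := card_pos.2 ⟨x, hx⟩
    have h := add _ _ _ _ {x} C (by omega) (step0.2.1 x hx C hC) (chn_singleton x)
      (st.chQ C hC) (by
        intro d hd u hu
        rw [mem_singleton] at hd
        rw [hd]
        exact hxC u hu)
    rwa [DD_erase_left hx, DD_erase_right hC] at h
  by_cases c3 : ∃ C ∈ P, ∃ y ∈ T, ∀ x ∈ C, ¬ x ≤ y
  · obtain ⟨C, hC, y, hy, hCy⟩ := c3
    have hs : 1 ≤ P.card := card_pos.2 ⟨C, hC⟩
    have h := add _ _ _ _ C {y} (by omega) (step0.2.2.1 C hC y hy) (st.chP C hC)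
      (chn_singleton y) (by
        intro d hd u hu
        rw [mem_singleton] at hu
        rw [hu]
        exact hCy d hd)
    rwa [DD_erase_right hC, DD_erase_left hy] at h
  by_cases c4 : ∃ C ∈ P, ∃ C' ∈ Q, ∀ x ∈ C, ∀ y ∈ C', ¬ x ≤ y
  · obtain ⟨C, hC, C', hC', hCC⟩ := c4
    have hs : 1 ≤ P.card := card_pos.2 ⟨C, hC⟩
    have h := add _ _ _ _ C C' (by omega) (step0.2.2.2 C hC C' hC') (st.chP C hC)
      (st.chQ C' hC') hCC
    rwa [DD_erase_right hC, DD_erase_right hC'] at h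
  push Not at c1 c2 c3 c4
  have nn : NN S T P Q := ⟨c1, c2, c3, c4⟩
  by_cases d1 : max (3 * (e : ℤ) - S.card - T.card) 0 ≤ (e : ℤ) - T.card
  · have hJ : (J.card : ℤ) = (e : ℤ) - T.card := by omega
    have hsj := sum_sub J (fun C hC => st.cQ C (hJQ hC))
    exact hA α S T P Q J N e st nn hJQ (by omega) (by omega) (by omega) (by omega) hNe
  by_cases d2 : max (3 * (e : ℤ) - S.card - T.card) 0 ≤ (e : ℤ) - S.card
  · have hI : (I.card : ℤ) = (e : ℤ) - S.card := by omega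
    have hsi := sum_sub I (fun C hC => st.cP C (hIP hC))
    have f1 : I.card ≤ e := by omega
    have f2 : e ≤ S.card + I.card := by omega
    have f3 : 3 * e ≤ T.card + S.card + I.card := by omega
    have f4 : e + ((∑ C ∈ I, (C.card - 1)) - 1) ≤ T.card := by omega
    have f5 : N + e = T.card + S.card + Q.card + P.card := by omega
    exact hD α N _ _ (hA αᵒᵈ T S Q P I N e (st_dual st) (nn_dual nn) hIP f1 f2 f3 f4 f5)
  by_cases hj : (3 * (e : ℤ) - S.card - T.card) ≤ 0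
  · exact hA α S T P Q ∅ N e st nn (by simp) (by simp) (by simp; omega) (by simp; omega)
      (by simp; omega) hNe
  push Not at hj
  have k1 : (e : ℤ) - S.card < 3 * (e : ℤ) - S.card - T.card := by omega
  have k2 : (e : ℤ) - T.card < 3 * (e : ℤ) - S.card - T.card := by omega
  have step2' := step2 hj k1 k2
  by_cases c5 : ∃ C ∈ P, ∃ C' ∈ Q, ∃ y0 ∈ C', ∀ x ∈ C, ∀ y ∈ C', y ≠ y0 → ¬ x ≤ y
  · obtain ⟨C, hC, C', hC', y0, hy0, hCC⟩ := c5
    have hs : 1 ≤ P.card := card_pos.2 ⟨C, hC⟩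
    have h := add _ _ _ _ C (C'.erase y0) (by omega) (step2'.1 C hC C' hC' y0 hy0)
      (st.chP C hC) (chn_erase (st.chQ C' hC') y0) (by
        intro d hd u hu
        rw [mem_erase] at hu
        exact hCC d hd u hu.2 hu.1)
    rwa [DD_erase_right hC, DD_insert hC' hy0] at h
  by_cases c6 : ∃ C ∈ P, ∃ C' ∈ Q, ∃ x0 ∈ C, ∀ x ∈ C, ∀ y ∈ C', x ≠ x0 → ¬ x ≤ y
  · obtain ⟨C, hC, C', hC', x0, hx0, hCC⟩ := c6
    have hs : 1 ≤ P.card := card_pos.2 ⟨C, hC⟩
    have h := add _ _ _ _ (C.erase x0) C' (by omega) (step2'.2 C hC C' hC' x0 hx0)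
      (chn_erase (st.chP C hC) x0) (st.chQ C' hC') (by
        intro d hd u hu
        rw [mem_erase] at hd
        exact hCC d hd.2 u hu hd.1)
    rwa [DD_insert hC hx0, DD_erase_right hC'] at h
  push Not at c5 c6
  have na : NA P Q := fun C hC C' hC' => ⟨fun y0 hy0 => by
    obtain ⟨x, hx, y, hy, h1, h2⟩ := c5 C hC C' hC' y0 hy0
    exact ⟨x, hx, y, hy, h1, h2⟩, fun x0 hx0 => by
    obtain ⟨x, hx, y, hy, h1, h2⟩ := c6 C hC C' hC' x0 hx0
    exact ⟨x, hx, y, hy, h1, h2⟩⟩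
  obtain ⟨j, hjj⟩ : ∃ j : ℕ, (j : ℤ) = 3 * (e : ℤ) - S.card - T.card :=
    ⟨(3 * (e : ℤ) - S.card - T.card).toNat, Int.toNat_of_nonneg hj.le⟩
  exact hX α S T P Q J I N e j st nn na hJQ hIP (by omega) (by omega) (by omega) (by omega)
    (by omega) (by omega) (by omega) hNe

end Pool.Agent.W490.RD.Ind
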